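import Pool.Agent.H29.TOW.S
import Pool.Agent.H9.HYP.TYU
import Pool.Agent.H29.HYP.INO
import Pool.Agent.H34.HYP.NON
import Pool.Agent.H37.AVS.LocB
import Pool.Agent.H97.HYP.TY0
import Pool.Agent.H59.HYP.Loc
import Pool.Agent.H74.HYP.UNR
import Pool.Agent.H70.HYP.NMU

/-!
# TOW, module TYI: the type does not depend on the completion
-/

set_option autoImplicit false

namespace Pool.TOW.TYI8

open Polynomial Pool.HYP Pool.AVS

section One

variable {L : Type} [Field L] {O : ValuationSubring L} {π : L}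

/-- An element congruent to `1` modulo the maximal ideal is a square. -/
theorem sq_near (h : Loc L O π) {u : L} (hu : (u - 1) / π ∈ O) : IsSquare u := by
  have := h.hens
  have hd : u - 1 ∈ O := by
    have h1 : u - 1 = (u - 1) / π * π := (div_mul_cancel₀ _ h.pi_ne).symm
    rw [h1]
    exact mul_mem hu h.pi_mem
  obtain ⟨r, hr⟩ := NON34.sqrt_unit (R := O) (LocB.two_unit h) 1 ⟨u - 1, hd⟩ isUnit_one
    ((RIP.mem_max h _).2 hu)
  refine ⟨(r : L), ?_⟩
  have h1 := congrArg (Subtype.val) hr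
  have h2 : (r : L) ^ 2 = 1 ^ 2 + (u - 1) := h1
  linear_combination -h2

theorem sq_iff (h : Loc L O π) {a b : L} (ha : a ≠ 0) (hab : (b - a) / (a * π) ∈ O) :
    IsSquare a ↔ IsSquare b := by
  have hp := h.pi_ne
  have h1 : IsSquare (b / a) := by
    apply sq_near h
    have h2 : (b / a - 1) / π = (b - a) / (a * π) := by
      field_simp
    rw [h2]
    exact hab
  have hb : b / a ≠ 0 := by
    intro h0
    have h2 : b = 0 := by
      rcases div_eq_zero_iff.1 h0 with h3 | h3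
      · exact h3
      · exact absurd h3 ha
    rw [h2] at hab
    apply LocB.pi_inv h
    have h3 : π⁻¹ = -((0 - a) / (a * π)) := by
      field_simp
      ring
    rw [h3]
    exact neg_mem hab
  constructor
  · intro h3
    have h4 := h3.mul h1
    rwa [mul_div_cancel₀ _ ha] at h4
  · intro h3
    have h4 := h3.mul h1.inv
    have h5 : b * (b / a)⁻¹ = a := by
      have h6 : b ≠ 0 := fun h7 => hb (by rw [h7, zero_div])
      field_simp
    rwa [h5] at h4

theorem ex_M (h : Loc L O π) {a : L} (ha : a ≠ 0) : ∃ M : ℕ, a⁻¹ * π ^ M ∈ O := by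
  obtain ⟨n, -, h2⟩ := h.arch a ha
  have hp := h.pi_ne
  refine ⟨n.toNat, ?_⟩
  have h3 : a⁻¹ * π ^ n.toNat = (a / π ^ n)⁻¹ * π ^ (-n).toNat := by
    have h4 : (π ^ n.toNat : L) = π ^ n * π ^ (-n).toNat := by
      rw [← zpow_natCast, ← zpow_natCast, ← zpow_add₀ hp]
      congr 1
      omega
    rw [h4]
    have h5 := zpow_ne_zero n hp
    field_simp
  rw [h3]
  exact mul_mem h2 (pow_mem h.pi_mem _)

/-- The square class is locally constant. -/
theorem sq_const (h : Loc L O π) {a : L} (ha : a ≠ 0) :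
    ∃ M : ℕ, ∀ b : L, (b - a) / π ^ M ∈ O → (IsSquare a ↔ IsSquare b) := by
  obtain ⟨M, hM⟩ := ex_M h ha
  have hp := h.pi_ne
  refine ⟨M + 1, fun b hb => sq_iff h ha ?_⟩
  have h1 : (b - a) / (a * π) = (b - a) / π ^ (M + 1) * (a⁻¹ * π ^ M) := by
    field_simp
    ring
  rw [h1]
  exact mul_mem hb hM

theorem pow_le (h : Loc L O π) {z : L} {M N : ℕ} (hMN : M ≤ N) (hz : z / π ^ N ∈ O) :
    z / π ^ M ∈ O := by
  obtain ⟨k, rfl⟩ := Nat.exists_eq_add_of_le hMN
  have hp := h.pi_ne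
  have h1 : z / π ^ M = z / π ^ (M + k) * π ^ k := by
    field_simp
    ring
  rw [h1]
  exact mul_mem hz (pow_mem h.pi_mem _)

/-- The square class of the value of a polynomial is locally constant. -/
theorem ev_const (h : Loc L O π) (z : L[X]) (c : O) (hc : z.eval (c : L) ≠ 0) :
    ∃ M : ℕ, ∀ N : ℕ, M ≤ N → ∀ b : L, ((c : L) - b) / π ^ N ∈ O →
      (IsSquare (z.eval (c : L)) ↔ IsSquare (z.eval b)) := by
  obtain ⟨k, q, hq⟩ := HYP59.clear_den h z
  obtain ⟨M, hM⟩ := sq_const h hc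
  have hp := h.pi_ne
  refine ⟨M + k, fun N hN b hb => hM _ ?_⟩
  have hb0 : ((c : L) - b) ∈ O := by
    have h1 := pow_le h (Nat.zero_le N) hb
    rwa [pow_zero, div_one] at h1
  have hbO : b ∈ O := by
    have h1 : b = (c : L) - ((c : L) - b) := by ring
    rw [h1]
    exact sub_mem c.2 hb0
  obtain ⟨t, ht⟩ := Polynomial.sub_dvd_eval_sub (⟨b, hbO⟩ : O) c q
  have h1 : ∀ y : O, π ^ k * z.eval (y : L) = ((q.eval y : O) : L) := by
    intro y
    rw [← TyZ.ev O y q, hq, eval_mul, eval_C]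
  have h2 : π ^ k * (z.eval b - z.eval (c : L)) = (b - c) * (t : L) := by
    have h3 := congrArg (Subtype.val) ht
    have h4 : ((q.eval (⟨b, hbO⟩ : O) : O) : L) - ((q.eval c : O) : L) = (b - c) * (t : L) := h3
    rw [← h1, ← h1] at h4
    rw [← h4]
    ring
  have h3 : ((c : L) - b) / π ^ (M + k) ∈ O := pow_le h hN hb
  have h4 : (z.eval b - z.eval (c : L)) / π ^ M = -(((c : L) - b) / π ^ (M + k) * (t : L)) := by
    have h5 : (z.eval b - z.eval (c : L)) / π ^ M =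
        π ^ k * (z.eval b - z.eval (c : L)) / π ^ (M + k) := by
      field_simp
      ring
    rw [h5, h2]
    ring
  rw [h4]
  exact neg_mem (mul_mem h3 t.2)

end One

section Two

variable {F : Type} [Field F] {P : F[X]} {L : Type} [Field L] {O : ValuationSubring L}
  {ι : RatFunc F →+* L} {L' : Type} [Field L'] {O' : ValuationSubring L'}
  {ι' : RatFunc F →+* L'}

theorem tr (h : IsComp F (IP P) (rf P) L O ι) (h' : IsComp F (IP P) (rf P) L' O' ι')
    (y : RatFunc F) (N : ℕ) (hy : ι y / ι (rf P) ^ N ∈ O) : ι' y / ι' (rf P) ^ N ∈ O' := by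
  rw [← map_pow, ← map_div₀, h'.mem, ← h.mem, map_div₀, map_pow]
  exact hy

/-- Being a square in the completion does not depend on the completion. -/
theorem sq_tr (h : IsComp F (IP P) (rf P) L O ι) (h' : IsComp F (IP P) (rf P) L' O' ι')
    (z : RatFunc F) (hz : IsSquare (ι z)) : IsSquare (ι' z) := by
  by_cases hz0 : z = 0
  · rw [hz0, map_zero]
    exact ⟨0, by ring⟩
  obtain ⟨y, hy⟩ := hz
  have hιz : ι z ≠ 0 := by
    rw [Ne, map_eq_zero]
    exact hz0
  have hy0 : y ≠ 0 := by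
    rintro rfl
    exact hιz (by rw [hy, mul_zero])
  obtain ⟨M, hM⟩ := ex_M h.loc hy0
  obtain ⟨w, hw⟩ := h.dense y (M + 1)
  have hp := h.loc.pi_ne
  have hp' := h'.loc.pi_ne
  -- `w ^ 2 / z` is close to `1`
  have h1 : (ι w / y - 1) / ι (rf P) ∈ O := by
    have h2 : (ι w / y - 1) / ι (rf P) =
        -((y - ι w) / ι (rf P) ^ (M + 1) * (y⁻¹ * ι (rf P) ^ M)) := by
      field_simp
      ring
    rw [h2]
    exact neg_mem (mul_mem hw hM)
  have h1' : ι w / y - 1 ∈ O := by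
    have h2 : ι w / y - 1 = (ι w / y - 1) / ι (rf P) * ι (rf P) :=
      (div_mul_cancel₀ _ hp).symm
    rw [h2]
    exact mul_mem h1 h.loc.pi_mem
  have h3 : (ι (w ^ 2 / z) - 1) / ι (rf P) ∈ O := by
    have h4 : ι (w ^ 2 / z) = (ι w / y) ^ 2 := by
      rw [map_div₀, map_pow, hy, div_pow]
      ring
    have h5 : (ι (w ^ 2 / z) - 1) / ι (rf P) =
        (ι w / y - 1) / ι (rf P) * ((ι w / y - 1) + 2) := by
      rw [h4]
      ring
    rw [h5]
    have h6 : (2 : L) ∈ O := by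
      have h7 : (2 : L) = 1 + 1 := by norm_num
      rw [h7]
      exact add_mem (one_mem O) (one_mem O)
    exact mul_mem h1 (add_mem h1' h6)
  have h4 : (ι' (w ^ 2 / z) - 1) / ι' (rf P) ∈ O' := by
    have h5 := tr h h' (w ^ 2 / z - 1) 1 (by
      rw [pow_one, map_sub, map_one]
      exact h3)
    rwa [pow_one, map_sub, map_one] at h5
  have h5 := sq_near h'.loc h4
  have h6 : ι' (w ^ 2 / z) ≠ 0 := by
    intro h0
    rw [h0] at h4
    apply LocB.pi_inv h'.loc
    have h7 : (ι' (rf P))⁻¹ = -((0 - 1) / ι' (rf P)) := by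
      ring
    rw [h7]
    exact neg_mem h4
  have h7 : w ≠ 0 := by
    rintro rfl
    apply h6
    rw [zero_pow two_ne_zero, zero_div, map_zero]
  have h8 : ι' z = (ι' w) ^ 2 * (ι' (w ^ 2 / z))⁻¹ := by
    rw [← map_pow, ← map_inv₀, ← map_mul]
    congr 1
    field_simp
  rw [h8]
  exact (IsSquare.sq _).mul h5.inv

/-- A common approximation of the roots of `f`. -/
theorem near (h : IsComp F (IP P) (rf P) L O ι) (h' : IsComp F (IP P) (rf P) L' O' ι')
    {g : ℕ} (hg : 1 ≤ g) (f : (RatFunc F)[X]) (c : O) (γ : O[X]) (c' : O') (γ' : O'[X])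
    (hγ' : OkL O' g γ')
    (hf : f.map ι = oL O ((X - C c) * γ)) (hf' : f.map ι' = oL O' ((X - C c') * γ')) (N : ℕ) :
    ∃ x : RatFunc F, ((c : L) - ι x) / ι (rf P) ^ N ∈ O ∧
      ((c' : L') - ι' x) / ι' (rf P) ^ N ∈ O' := by
  obtain ⟨x, hx⟩ := h.dense c N
  have hp := h.loc.pi_ne
  have hp' := h'.loc.pi_ne
  refine ⟨x, hx, ?_⟩
  have hxO : ι x ∈ O := by
    have h1 : ι x = c - ((c : L) - ι x) / ι (rf P) ^ N * ι (rf P) ^ N := by
      field_simp
      ring
    rw [h1]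
    exact sub_mem c.2 (mul_mem hx (pow_mem h.loc.pi_mem N))
  have hxO' : ι' x ∈ O' := by
    rw [h'.mem, ← h.mem]
    exact hxO
  have h1 : ι (f.eval x) = (ι x - c) * ((γ.eval (⟨ι x, hxO⟩ : O) : O) : L) := by
    have h2 : (f.map ι).eval (ι x) = ι (f.eval x) := Polynomial.eval_map_apply ι x
    have h3 := TyZ.ev O (⟨ι x, hxO⟩ : O) γ
    rw [← h2, hf, TyZ.oL_lin, eval_mul, eval_sub, eval_X, eval_C, ← h3]
  have h1' : ι' (f.eval x) = (ι' x - c') * ((γ'.eval (⟨ι' x, hxO'⟩ : O') : O') : L') := by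
    have h2 : (f.map ι').eval (ι' x) = ι' (f.eval x) := Polynomial.eval_map_apply ι' x
    have h3 := TyZ.ev O' (⟨ι' x, hxO'⟩ : O') γ'
    rw [← h2, hf', TyZ.oL_lin, eval_mul, eval_sub, eval_X, eval_C, ← h3]
  have h2 : ι (f.eval x) / ι (rf P) ^ N ∈ O := by
    have h3 : ι (f.eval x) / ι (rf P) ^ N =
        -(((c : L) - ι x) / ι (rf P) ^ N * ((γ.eval (⟨ι x, hxO⟩ : O) : O) : L)) := by
      rw [h1]
      ring
    rw [h3]
    exact neg_mem (mul_mem hx (SetLike.coe_mem _))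
  have h3 := tr h h' _ N h2
  obtain ⟨u, hu⟩ := TyZ.unit_ev O' hg hγ' (⟨ι' x, hxO'⟩ : O')
  have h4 : ((γ'.eval (⟨ι' x, hxO'⟩ : O') : O') : L') * (((u⁻¹ : O'ˣ) : O') : L') = 1 := by
    have h5 := congrArg (Subtype.val) u.mul_inv
    rw [hu] at h5
    exact h5
  have h5 : ((c' : L') - ι' x) / ι' (rf P) ^ N =
      -(ι' (f.eval x) / ι' (rf P) ^ N * (((u⁻¹ : O'ˣ) : O') : L')) := by
    rw [h1']
    linear_combination (-((c' : L') - ι' x) / ι' (rf P) ^ N) * h4
  rw [h5]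
  exact neg_mem (mul_mem h3 (SetLike.coe_mem _))

theorem half (h : IsComp F (IP P) (rf P) L O ι) (h' : IsComp F (IP P) (rf P) L' O' ι')
    {g : ℕ} (hg : 1 ≤ g) (f : (RatFunc F)[X]) (c : O) (γ : O[X]) (c' : O') (γ' : O'[X])
    (hγ' : OkL O' g γ')
    (hf : f.map ι = oL O ((X - C c) * γ)) (hf' : f.map ι' = oL O' ((X - C c') * γ'))
    (z : (RatFunc F)[X]) (hz : (z.map ι).eval (c : L) ≠ 0) (hz' : (z.map ι').eval (c' : L') ≠ 0)
    (hs : IsSquare ((z.map ι).eval (c : L))) : IsSquare ((z.map ι').eval (c' : L')) := by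
  obtain ⟨M, hM⟩ := ev_const h.loc (z.map ι) c hz
  obtain ⟨M', hM'⟩ := ev_const h'.loc (z.map ι') c' hz'
  obtain ⟨x, hx, hx'⟩ := near h h' hg f c γ c' γ' hγ' hf hf' (max M M')
  rw [hM' _ (le_max_right _ _) _ hx', Polynomial.eval_map_apply]
  apply sq_tr h h'
  rw [← Polynomial.eval_map_apply, ← hM _ (le_max_left _ _) _ hx]
  exact hs

/-- The value of the class at the root. -/
theorem val (f α : (RatFunc F)[X]) (c : O) (γ : O[X])
    (hf : f.map ι = oL O ((X - C c) * γ)) (n : ℕ) :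
    ((α * (derivative f) ^ n).map ι).eval (c : L) =
      (α.map ι).eval (c : L) * ((oL O γ).eval (c : L)) ^ n := by
  rw [Polynomial.map_mul, Polynomial.map_pow, eval_mul, eval_pow, ← Polynomial.derivative_map, hf,
    TyZ.oL_lin, derivative_mul, derivative_X_sub_C]
  simp

/-- The value of the class at the root is not zero. -/
theorem val_ne {g : ℕ} (hg : 1 ≤ g) (f α : (RatFunc F)[X]) (c : O) (γ : O[X]) (hγ : OkL O g γ)
    (hα : IsCoprime α f) (hf : f.map ι = oL O ((X - C c) * γ)) (n : ℕ) :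
    ((α * (derivative f) ^ n).map ι).eval (c : L) ≠ 0 := by
  rw [val f α c γ hf n]
  refine mul_ne_zero ?_ (pow_ne_zero _ ?_)
  · intro h0
    have h1 : IsCoprime (α.map ι) (f.map ι) := hα.map (mapRingHom ι)
    rw [hf, TyZ.oL_lin] at h1
    have h2 := h1.of_mul_right_left
    have h3 : (X - C (c : L)) ∣ α.map ι := dvd_iff_isRoot.2 h0
    exact (irreducible_X_sub_C (c : L)).not_isUnit (h2.isUnit_of_dvd' h3 dvd_rfl)
  · intro h0
    rw [TyZ.ev] at h0
    have h1 := TyZ.unit_ev O hg hγ c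
    have h2 : γ.eval c = 0 := Subtype.ext h0
    rw [h2] at h1
    exact not_isUnit_zero h1

/-- The first component of the type. -/
theorem fst [Finite F] (hPm : P.Monic) (hP : Irreducible P) {g : ℕ} (hg : 1 ≤ g) (f : F[X][X])
    (hf : f.Monic) (h : IsComp F (IP P) (rf P) L O ι) (c : O) (γ : O[X]) (hγ : OkL O g γ)
    (hfc : (fK f).map ι = oL O ((X - C c) * γ)) (α : (RatFunc F)[X]) (x : Ty)
    (hα : IsCoprime α (fK f)) (hN : NSq (fK f) α) (hx : TyL O (ι (rf P)) c γ x (α.map ι)) :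
    US P f α ↔ x.1 = 0 := by
  obtain ⟨fO, -, -, hfO, -, -, hU, -⟩ := ino F P hPm hP L O ι h f hf
  have h1 : fO = (X - C c) * γ := HYP59.oL_inj (hfO.trans hfc)
  rw [← hU α hα, h1]
  have h2 : IsCoprime (α.map ι) (oL O ((X - C c) * γ)) := by
    rw [← hfc]
    exact hα.map (mapRingHom ι)
  have h3 : NSq (oL O ((X - C c) * γ)) (α.map ι) := by
    rw [← hfc, NSq, nmu.2.2.2 (RatFunc F) L ι (fK f) α (hf.map _)]
    exact hN.map ι
  exact tyu unr nmu L O (ι (rf P)) h.loc g c γ hg hγ (α.map ι) x h2 h3 hx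

end Two

end Pool.TOW.TYI8

namespace Pool.TOW

open Polynomial Pool.HYP Pool.AVS

theorem tyi : TYIStmt := by
  intro F _ _ _ g P hg hPm hP f hf _ L _ O ι h L' _ O' ι' h' c γ c' γ' hγ hγ' hfc hfc' α x x'
    hα hN hx hx'
  have hz : ∀ a b : ZMod 2, (a = 0 ↔ b = 0) → a = b := by decide
  have h1 : x.1 = x'.1 := by
    apply hz
    rw [← TYI8.fst hPm hP hg f hf h c γ hγ hfc α x hα hN hx,
      ← TYI8.fst hPm hP hg f hf h' c' γ' hγ' hfc' α x' hα hN hx']
  obtain ⟨_, _, _, _, _, hs⟩ := hx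
  obtain ⟨_, _, _, _, _, hs'⟩ := hx'
  have h2 : x.2 = x'.2 := by
    apply hz
    rw [hs, hs', ← h1, ← TYI8.val (fK f) α c γ hfc, ← TYI8.val (fK f) α c' γ' hfc']
    constructor
    · exact TYI8.half h h' hg (fK f) c γ c' γ' hγ' hfc hfc' _
        (TYI8.val_ne hg (fK f) α c γ hγ hα hfc _) (TYI8.val_ne hg (fK f) α c' γ' hγ' hα hfc' _)
    · exact TYI8.half h' h hg (fK f) c' γ' c γ hγ hfc' hfc _
        (TYI8.val_ne hg (fK f) α c' γ' hγ' hα hfc' _) (TYI8.val_ne hg (fK f) α c γ hγ hα hfc _)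
  exact Prod.ext h1 h2

end Pool.TOW
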